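import Pool.Agent.GRA.StmtsC

set_option autoImplicit false

open MeasureTheory Matrix Finset
open scoped ComplexConjugate

namespace Pool.Agent.GRA.H56

open Pool.Agent.GRA

/-- Cauchy for complex sums -/
theorem csum {ι : Type} (s : Finset ι) (f : ι → ℂ) :
    ‖∑ k ∈ s, f k‖ ^ 2 ≤ (s.card : ℝ) * ∑ k ∈ s, ‖f k‖ ^ 2 := by
  have h1 : ‖∑ k ∈ s, f k‖ ^ 2 ≤ (∑ k ∈ s, ‖f k‖) ^ 2 :=
    pow_le_pow_left₀ (norm_nonneg _) (norm_sum_le _ _) 2
  exact h1.trans sq_sum_le_card_mul_sum_sq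

section

variable {n : ℕ}

/-- the other indices -/
def oth (i j : Fin n) : Finset (Fin n) := (Finset.univ.erase i).erase j

theorem mem_oth {i j k : Fin n} : k ∈ oth i j ↔ k ≠ j ∧ k ≠ i := by
  simp [oth]

theorem card_oth {i j : Fin n} (hij : i ≠ j) : ((oth i j).card : ℝ) = (n : ℝ) - 2 := by
  have h1 : (oth i j).card + 1 = (Finset.univ.erase i).card := by
    unfold oth
    exact Finset.card_erase_add_one (by simp [hij.symm])
  have h2 : (Finset.univ.erase i).card + 1 = n := by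
    rw [Finset.card_erase_add_one (Finset.mem_univ i), Finset.card_univ, Fintype.card_fin]
  have : ((oth i j).card : ℝ) + 1 + 1 = n := by
    exact_mod_cast (by omega : (oth i j).card + 1 + 1 = n)
  linarith

theorem sum_split {M : Type} [AddCommMonoid M] {i j : Fin n} (hij : i ≠ j) (f : Fin n → M) :
    ∑ k, f k = f i + (f j + ∑ k ∈ oth i j, f k) := by
  unfold oth
  rw [Finset.add_sum_erase _ _ (by simp [hij.symm] : j ∈ Finset.univ.erase i),
    Finset.add_sum_erase _ _ (Finset.mem_univ i)]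

theorem A2_eq (x : Fin n → Fin n → ℂ) (Q : ℝ) {i j : Fin n} (hij : i ≠ j) :
    A2 x Q i j = (1 / 2) * ∑ k ∈ oth i j, ‖zv x Q i k - zv x Q j k‖ ^ 2 := by
  unfold A2
  congr 1
  rw [sum_split hij, if_pos (Or.inl rfl), if_pos (Or.inr rfl), zero_add, zero_add]
  apply Finset.sum_congr rfl
  intro k hk
  rw [mem_oth] at hk
  rw [if_neg]
  rintro (h | h)
  · exact hk.2 h
  · exact hk.1 h

theorem par (a b : ℂ) : ‖a‖ ^ 2 + ‖b‖ ^ 2 = 1 / 2 * ‖a - b‖ ^ 2 + 1 / 2 * ‖a + b‖ ^ 2 := by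
  have h := parallelogram_law_with_norm ℝ a b
  nlinarith

theorem sum_yv (hn : 4 ≤ n) (x : Fin n → Fin n → ℂ) (Q : ℝ) (hx : IsArr x Q) :
    ∑ i, yv x Q i = 0 := by
  unfold yv
  rw [← Finset.sum_div, Finset.sum_sub_distrib, hx.2.2, Finset.sum_const, Finset.card_univ,
    Fintype.card_fin, nsmul_eq_mul]
  rw [div_eq_zero_iff]
  left
  ring

theorem sum_zv (hn : 4 ≤ n) (x : Fin n → Fin n → ℂ) (Q : ℝ) (hx : IsArr x Q) (i : Fin n) :
    ∑ j, zv x Q i j = 0 := by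
  have hn2 : ((n : ℂ) - 2) ≠ 0 := by
    have : (n : ℝ) - 2 ≠ 0 := by
      have : (4 : ℝ) ≤ n := by exact_mod_cast hn
      intro h
      linarith
    exact_mod_cast this
  have hy := sum_yv hn x Q hx
  have h1 : ∀ j, zv x Q i j = (x i j - Q - yv x Q i - yv x Q j) +
      (if i = j then (Q + yv x Q i + yv x Q j : ℂ) else 0) := by
    intro j
    unfold zv
    split_ifs with h
    · subst h
      rw [hx.2.1 i]
      ring
    · ring
  simp only [h1]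
  rw [Finset.sum_add_distrib, Finset.sum_ite_eq, if_pos (Finset.mem_univ i),
    Finset.sum_sub_distrib, Finset.sum_sub_distrib, Finset.sum_sub_distrib, hy, Finset.sum_const,
    Finset.sum_const, Finset.card_univ, Fintype.card_fin, nsmul_eq_mul, nsmul_eq_mul]
  have h2 : ∑ j, x i j = ((n : ℂ) - 2) * yv x Q i + ((n : ℂ) - 1) * Q := by
    unfold yv
    field_simp
    ring
  rw [h2]
  ring

theorem zv_symm (x : Fin n → Fin n → ℂ) (Q : ℝ) (hx : IsArr x Q) (i j : Fin n) :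
    zv x Q i j = zv x Q j i := by
  unfold zv
  by_cases h : i = j
  · rw [if_pos h, if_pos h.symm]
  · rw [if_neg h, if_neg (Ne.symm h), hx.1 i j]
    ring

/-- the main estimate for `z` -/
theorem zmain (hn : 4 ≤ n) (z : Fin n → Fin n → ℂ) (hs : ∀ i j, z i j = z j i)
    (hd : ∀ i, z i i = 0) (hr : ∀ i, ∑ j, z i j = 0) {i j : Fin n} (hij : i ≠ j) :
    ((n : ℝ) - 1) * ‖z i j‖ ^ 2 ≤ ((n : ℝ) - 3) * ((1 / 2) * ∑ k, ∑ l, ‖z k l‖ ^ 2 -
      (1 / 2) * ∑ k ∈ oth i j, ‖z i k - z j k‖ ^ 2) := by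
  have hn' : (4 : ℝ) ≤ n := by exact_mod_cast hn
  have hcard := card_oth hij
  set T := oth i j with hT
  -- first Cauchy
  have e1 : ∑ k ∈ T, (z i k + z j k) = -2 * z i j := by
    have h1 := hr i
    have h2 := hr j
    rw [sum_split hij] at h1 h2
    rw [hd i] at h1
    rw [hd j, hs j i] at h2
    rw [Finset.sum_add_distrib]
    linear_combination h1 + h2
  have c1 := csum T (fun k => z i k + z j k)
  rw [e1, hcard] at c1
  have c1' : 4 * ‖z i j‖ ^ 2 ≤ ((n : ℝ) - 2) * ∑ k ∈ T, ‖z i k + z j k‖ ^ 2 := by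
    refine le_trans (le_of_eq ?_) c1
    rw [norm_mul, mul_pow]
    norm_num
  -- second Cauchy
  have e2 : ∑ k ∈ T, ∑ l ∈ T, z k l = 2 * z i j := by
    have h1 : ∀ k, ∑ l ∈ T, z k l = -(z i k + z j k) := by
      intro k
      have h1 := hr k
      rw [sum_split hij] at h1
      rw [hs i k, hs j k]
      linear_combination h1
    simp only [h1]
    rw [Finset.sum_neg_distrib, e1]
    ring
  have c2 := csum T (fun k => ∑ l ∈ T, z k l)
  rw [e2, hcard] at c2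
  have c3 : ∀ k ∈ T, ‖∑ l ∈ T, z k l‖ ^ 2 ≤ ((n : ℝ) - 3) * ∑ l ∈ T, ‖z k l‖ ^ 2 := by
    intro k hk
    have h1 : ∑ l ∈ T, z k l = ∑ l ∈ T.erase k, z k l := by
      rw [← Finset.add_sum_erase T _ hk, hd k, zero_add]
    have h2 := csum (T.erase k) (fun l => z k l)
    have h3 : ((T.erase k).card : ℝ) = (n : ℝ) - 3 := by
      have h4 : (((T.erase k).card + 1 : ℕ) : ℝ) = (n : ℝ) - 2 := by
        rw [Finset.card_erase_add_one hk, hcard]
      push_cast at h4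
      linarith
    rw [h3] at h2
    rw [h1]
    refine h2.trans ?_
    apply mul_le_mul_of_nonneg_left _ (by linarith)
    exact Finset.sum_le_sum_of_subset_of_nonneg (Finset.erase_subset _ _)
      (fun _ _ _ => sq_nonneg _)
  have c4 : 4 * ‖z i j‖ ^ 2 ≤ ((n : ℝ) - 2) * (((n : ℝ) - 3) *
      ∑ k ∈ T, ∑ l ∈ T, ‖z k l‖ ^ 2) := by
    refine le_trans (le_of_eq ?_) (c2.trans ?_)
    · rw [norm_mul, mul_pow]
      norm_num
    · apply mul_le_mul_of_nonneg_left _ (by linarith)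
      rw [Finset.mul_sum]
      exact Finset.sum_le_sum c3
  -- the total
  have e3 : ∑ k, ∑ l, ‖z k l‖ ^ 2 = 2 * ‖z i j‖ ^ 2 + 2 * ∑ k ∈ T, (‖z i k‖ ^ 2 + ‖z j k‖ ^ 2) +
      ∑ k ∈ T, ∑ l ∈ T, ‖z k l‖ ^ 2 := by
    have h1 : ∀ k, ∑ l, ‖z k l‖ ^ 2 = ‖z i k‖ ^ 2 + ‖z j k‖ ^ 2 + ∑ l ∈ T, ‖z k l‖ ^ 2 := by
      intro k
      rw [sum_split hij, hs k i, hs k j]
      ring
    simp only [h1]
    rw [Finset.sum_add_distrib]
    rw [sum_split hij (fun k => ‖z i k‖ ^ 2 + ‖z j k‖ ^ 2)]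
    rw [sum_split hij (fun k => ∑ l ∈ T, ‖z k l‖ ^ 2)]
    rw [hd i, hd j, hs j i, Finset.sum_add_distrib]
    simp only [norm_zero]
    ring
  have e4 : ∑ k ∈ T, (‖z i k‖ ^ 2 + ‖z j k‖ ^ 2) = 1 / 2 * ∑ k ∈ T, ‖z i k - z j k‖ ^ 2 +
      1 / 2 * ∑ k ∈ T, ‖z i k + z j k‖ ^ 2 := by
    rw [Finset.mul_sum, Finset.mul_sum, ← Finset.sum_add_distrib]
    exact Finset.sum_congr rfl fun k _ => par _ _
  rw [e3, e4]
  set P := ∑ k ∈ T, ‖z i k + z j k‖ ^ 2 with hP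
  set D := ∑ k ∈ T, ‖z i k - z j k‖ ^ 2 with hD
  set W := ∑ k ∈ T, ∑ l ∈ T, ‖z k l‖ ^ 2 with hW
  set a := ‖z i j‖ ^ 2 with ha
  have h2 : (0 : ℝ) < (n : ℝ) - 2 := by linarith
  have h3 : (0 : ℝ) < (n : ℝ) - 3 := by linarith
  have g1 : 4 * a * ((n : ℝ) - 3) ≤ ((n : ℝ) - 2) * (((n : ℝ) - 3) * P) := by
    nlinarith [mul_le_mul_of_nonneg_right c1' h3.le]
  have g2 : ((n : ℝ) - 2) * (((n : ℝ) - 1) * a) ≤ ((n : ℝ) - 2) * (((n : ℝ) - 3) *
      (1 / 2 * (2 * a + 2 * (1 / 2 * D + 1 / 2 * P) + W) - 1 / 2 * D)) := by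
    nlinarith
  exact le_of_mul_le_mul_left g2 h2

theorem ymain (hn : 4 ≤ n) (y : Fin n → ℂ) (hy : ∑ i, y i = 0) {i j : Fin n} (hij : i ≠ j) :
    ‖y i + y j‖ ^ 2 ≤ (2 * ((n : ℝ) - 2) / n) * ∑ i, ‖y i‖ ^ 2 := by
  have hn' : (4 : ℝ) ≤ n := by exact_mod_cast hn
  have hcard := card_oth hij
  have e1 : ∑ k ∈ oth i j, y k = -(y i + y j) := by
    rw [sum_split hij] at hy
    linear_combination hy
  have c1 := csum (oth i j) y
  rw [e1, hcard, norm_neg] at c1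
  rw [sum_split hij]
  have hp := par (y i) (y j)
  set P := ∑ k ∈ oth i j, ‖y k‖ ^ 2 with hP
  have h0 : 0 ≤ ‖y i - y j‖ ^ 2 := sq_nonneg _
  rw [div_mul_eq_mul_div, le_div_iff₀ (by linarith)]
  nlinarith

end

theorem car : CARStmt := by
  intro n hn x Q hx
  have hn' : (4 : ℝ) ≤ n := by exact_mod_cast hn
  refine ⟨sum_yv hn x Q hx, sum_zv hn x Q hx, ?_⟩
  intro i j hij
  have hz := zmain hn (zv x Q) (zv_symm x Q hx) (fun i => by simp [zv]) (sum_zv hn x Q hx) hij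
  have hy := ymain hn (yv x Q) (sum_yv hn x Q hx) hij
  rw [← A2_eq x Q hij] at hz
  change ((n : ℝ) - 1) * ‖zv x Q i j‖ ^ 2 ≤ ((n : ℝ) - 3) * (Zv x Q - A2 x Q i j) at hz
  change ‖yv x Q i + yv x Q j‖ ^ 2 ≤ (2 * ((n : ℝ) - 2) / n) * Yv x Q at hy
  refine ⟨?_, ?_, ?_⟩
  · rw [A2_eq x Q hij]
    exact mul_nonneg (by norm_num) (Finset.sum_nonneg fun _ _ => sq_nonneg _)
  · have h1 : 0 ≤ ((n : ℝ) - 1) * ‖zv x Q i j‖ ^ 2 :=
      mul_nonneg (by linarith) (sq_nonneg _)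
    have h2 : 0 ≤ ((n : ℝ) - 3) * (Zv x Q - A2 x Q i j) := h1.trans hz
    have h3 : 0 ≤ Zv x Q - A2 x Q i j := by
      by_contra hneg
      rw [not_le] at hneg
      have : ((n : ℝ) - 3) * (Zv x Q - A2 x Q i j) < 0 :=
        mul_neg_of_pos_of_neg (by linarith) hneg
      linarith
    linarith
  · have e : x i j - Q = (yv x Q i + yv x Q j) + zv x Q i j := by
      unfold zv
      rw [if_neg hij]
      ring
    have h1 : ‖x i j - Q‖ ^ 2 ≤ (‖yv x Q i + yv x Q j‖ + ‖zv x Q i j‖) ^ 2 := by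
      rw [e]
      exact pow_le_pow_left₀ (norm_nonneg _) (norm_add_le _ _) 2
    refine h1.trans ?_
    have hA : (2 * ((n : ℝ) - 2) / n) * Yv x Q + Zv x Q - A2 x Q i j =
        (2 * ((n : ℝ) - 2) / n) * Yv x Q + (Zv x Q - A2 x Q i j) := by ring
    rw [hA]
    set A := (2 * ((n : ℝ) - 2) / n) * Yv x Q with hAd
    set B := Zv x Q - A2 x Q i j with hBd
    set a := ‖yv x Q i + yv x Q j‖ with ha
    set b := ‖zv x Q i j‖ with hb
    rw [div_mul_eq_mul_div, le_div_iff₀ (by linarith)]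
    have h3 : (0 : ℝ) < (n : ℝ) - 3 := by linarith
    have h4 : ((n : ℝ) - 3) * ((a + b) ^ 2 * ((n : ℝ) - 1)) ≤
        ((n : ℝ) - 3) * ((2 * (n : ℝ) - 4) * (A + B)) := by
      have g1 : ((n : ℝ) - 3) * (2 * (n : ℝ) - 4) * a ^ 2 ≤
          ((n : ℝ) - 3) * (2 * (n : ℝ) - 4) * A :=
        mul_le_mul_of_nonneg_left hy (mul_nonneg h3.le (by linarith))
      have g2 : (2 * (n : ℝ) - 4) * (((n : ℝ) - 1) * b ^ 2) ≤
          (2 * (n : ℝ) - 4) * (((n : ℝ) - 3) * B) :=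
        mul_le_mul_of_nonneg_left hz (by linarith)
      have g3 : 0 ≤ (((n : ℝ) - 3) * a - ((n : ℝ) - 1) * b) ^ 2 := sq_nonneg _
      nlinarith
    exact le_of_mul_le_mul_left h4 h3

end Pool.Agent.GRA.H56
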