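import Pool.Agent.Helper56_GRA.CAR

set_option autoImplicit false

open MeasureTheory Matrix Finset
open scoped ComplexConjugate

namespace Pool.Agent.GRA.H56

open Pool.Agent.GRA

variable {n : ℕ} {E : Type} [NormedAddCommGroup E] [InnerProductSpace ℂ E]

/-! ### Facts on `Sys` -/

theorem inner_s (S : Sys n E) (σ : Equiv.Perm (Fin n)) (x y : E) :
    (inner ℂ (S.s σ x) (S.s σ y) : ℂ) = inner ℂ x y := by
  let L : E →ₗᵢ[ℂ] E := ⟨S.s σ, S.iso σ⟩
  exact L.inner_map_map x y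

theorem s_u (S : Sys n E) {f₀ : E} (h0 : S.Inv f₀) (σ : Equiv.Perm (Fin n)) (i j : Fin n) :
    S.s σ (S.u f₀ i j) = S.u f₀ (σ i) (σ j) := by
  unfold Sys.u
  by_cases h : i = j
  · rw [if_pos h, if_pos (by rw [h]), map_zero]
  · rw [if_neg h, if_neg (fun h' => h (σ.injective h')), map_sub, S.eqv, h0 σ]

theorem u_symm (S : Sys n E) (f₀ : E) (i j : Fin n) : S.u f₀ i j = S.u f₀ j i := by
  unfold Sys.u
  by_cases h : i = j
  · rw [if_pos h, if_pos h.symm]
  · rw [if_neg h, if_neg (Ne.symm h), S.comm i j]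

theorem u_diag (S : Sys n E) (f₀ : E) (i : Fin n) : S.u f₀ i i = 0 := by
  unfold Sys.u
  rw [if_pos rfl]

theorem exists_perm {k l k' l' : Fin n} (h : k ≠ l) (h' : k' ≠ l') :
    ∃ σ : Equiv.Perm (Fin n), σ k = k' ∧ σ l = l' := by
  refine ⟨Equiv.swap (Equiv.swap k k' l) l' * Equiv.swap k k', ?_, ?_⟩
  · rw [Equiv.Perm.mul_apply, Equiv.swap_apply_left]
    apply Equiv.swap_apply_of_ne_of_ne _ h'
    intro h2
    have h3 : Equiv.swap k k' k = Equiv.swap k k' l := by
      rw [Equiv.swap_apply_left]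
      exact h2
    exact h ((Equiv.swap k k').injective h3)
  · rw [Equiv.Perm.mul_apply, Equiv.swap_apply_left]

/-- inner products with invariant vectors are constant -/
theorem inner_u_inv (S : Sys n E) {f₀ h : E} (h0 : S.Inv f₀) (hh : S.Inv h) {k l k' l' : Fin n}
    (hkl : k ≠ l) (hkl' : k' ≠ l') :
    (inner ℂ (S.u f₀ k l) h : ℂ) = inner ℂ (S.u f₀ k' l') h := by
  obtain ⟨σ, h1, h2⟩ := exists_perm hkl hkl'
  rw [← inner_s S σ (S.u f₀ k l) h, s_u S h0, h1, h2, hh σ]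

/-! ### The vectors `A v` -/

/-- `½ ∑ v_{ij} u_{ij}` -/
noncomputable def Av (S : Sys n E) (f₀ : E) (v : Fin n → Fin n → ℂ) : E :=
  (1 / 2 : ℂ) • ∑ i, ∑ j, v i j • S.u f₀ i j

theorem inner_Av (S : Sys n E) (f₀ : E) (v : Fin n → Fin n → ℂ) (x : E) :
    (inner ℂ (Av S f₀ v) x : ℂ) =
      (1 / 2) * ∑ i, ∑ j, conj (v i j) * (inner ℂ (S.u f₀ i j) x : ℂ) := by
  unfold Av
  rw [inner_smul_left, sum_inner]
  congr 1
  · rw [map_div₀, map_one, map_ofNat]
  · apply Finset.sum_congr rfl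
    intro i _
    rw [sum_inner]
    apply Finset.sum_congr rfl
    intro j _
    rw [inner_smul_left]

theorem inner_Av_right (S : Sys n E) (f₀ : E) (v : Fin n → Fin n → ℂ) (x : E) :
    (inner ℂ x (Av S f₀ v) : ℂ) =
      (1 / 2) * ∑ i, ∑ j, v i j * (inner ℂ x (S.u f₀ i j) : ℂ) := by
  unfold Av
  rw [inner_smul_right, inner_sum]
  congr 1
  apply Finset.sum_congr rfl
  intro i _
  rw [inner_sum]
  apply Finset.sum_congr rfl
  intro j _
  rw [inner_smul_right]

theorem s_Av (S : Sys n E) {f₀ : E} (h0 : S.Inv f₀) (i j : Fin n) (v : Fin n → Fin n → ℂ) :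
    S.s (Equiv.swap i j) (Av S f₀ v) =
      Av S f₀ (fun k l => v (Equiv.swap i j k) (Equiv.swap i j l)) := by
  unfold Av
  rw [map_smul, map_sum]
  congr 1
  rw [← Equiv.sum_comp (Equiv.swap i j) (fun k => ∑ l, v (Equiv.swap i j k)
    (Equiv.swap i j l) • S.u f₀ k l)]
  apply Finset.sum_congr rfl
  intro k _
  rw [map_sum, ← Equiv.sum_comp (Equiv.swap i j) (fun l => v (Equiv.swap i j
    (Equiv.swap i j k)) (Equiv.swap i j l) • S.u f₀ (Equiv.swap i j k) l)]
  apply Finset.sum_congr rfl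
  intro l _
  rw [map_smul, s_u S h0, Equiv.swap_apply_self, Equiv.swap_apply_self]

theorem Av_sub (S : Sys n E) (f₀ : E) (v w : Fin n → Fin n → ℂ) :
    Av S f₀ (fun k l => v k l - w k l) = Av S f₀ v - Av S f₀ w := by
  unfold Av
  rw [← smul_sub, ← Finset.sum_sub_distrib]
  congr 1
  apply Finset.sum_congr rfl
  intro k _
  rw [← Finset.sum_sub_distrib]
  apply Finset.sum_congr rfl
  intro l _
  rw [sub_smul]

/-- symmetric arrays with zero diagonal -/
def SZ (v : Fin n → Fin n → ℂ) : Prop := (∀ i j, v i j = v j i) ∧ ∀ i, v i i = 0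

/-- the Gram formula -/
theorem gram_formula (S : Sys n E) {f₀ : E} {Q g1 g2 δ β : ℝ} (hG : S.IsGram f₀ Q g1 g2 δ β)
    (v : Fin n → Fin n → ℂ) (hv : SZ v) {k l : Fin n} (hkl : k ≠ l) :
    (inner ℂ (S.u f₀ k l) (Av S f₀ v) : ℂ) =
      g2 * v k l + δ * (∑ j, v k j + ∑ j, v l j) + β * ((1 / 2) * ∑ i, ∑ j, v i j) := by
  rw [inner_Av_right]
  have h1 : ∀ i j, v i j * (inner ℂ (S.u f₀ k l) (S.u f₀ i j) : ℂ) =
      g2 * ((if k = i ∧ l = j then v i j else 0) + (if k = j ∧ l = i then v i j else 0)) +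
      δ * ((if k = i then v i j else 0) + (if k = j then v i j else 0) +
        (if l = i then v i j else 0) + (if l = j then v i j else 0)) + β * v i j := by
    intro i j
    by_cases hij : i = j
    · subst hij
      rw [hv.2 i]
      simp
    · have hc : ∀ (p : Prop) [Decidable p], ((if p then 1 else 0 : ℝ) : ℂ) =
          (if p then 1 else 0) := by
        intro p _
        split_ifs <;> simp
      rw [hG.gram k l i j hkl hij]
      simp only [Complex.ofReal_add, Complex.ofReal_mul, hc]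
      have h2 : (if (k = i ∧ l = j) ∨ (k = j ∧ l = i) then (1 : ℂ) else 0) =
          (if k = i ∧ l = j then 1 else 0) + (if k = j ∧ l = i then 1 else 0) := by
        by_cases c1 : k = i ∧ l = j
        · have c2 : ¬ (k = j ∧ l = i) := fun c => hij (c1.1.symm.trans c.1)
          rw [if_pos (Or.inl c1), if_pos c1, if_neg c2]
          simp
        · by_cases c2 : k = j ∧ l = i
          · rw [if_pos (Or.inr c2), if_neg c1, if_pos c2]
            simp
          · rw [if_neg (by tauto), if_neg c1, if_neg c2]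
            simp
      rw [h2]
      have h3 : ∀ (p : Prop) [Decidable p], (if p then v i j else 0) =
          v i j * (if p then (1 : ℂ) else 0) := by
        intro p _
        split_ifs <;> simp
      rw [h3 (k = i ∧ l = j), h3 (k = j ∧ l = i), h3 (k = i), h3 (k = j), h3 (l = i), h3 (l = j)]
      ring
  simp only [h1]
  simp only [Finset.sum_add_distrib, ← Finset.mul_sum]
  have e1 : ∑ i, ∑ j, (if k = i ∧ l = j then v i j else 0) = v k l := by
    rw [Finset.sum_eq_single k, Finset.sum_eq_single l]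
    · simp
    · intro b _ hb
      rw [if_neg (fun c => hb c.2.symm)]
    · intro hc
      exact absurd (Finset.mem_univ l) hc
    · intro b _ hb
      apply Finset.sum_eq_zero
      intro c _
      rw [if_neg (fun c => hb c.1.symm)]
    · intro hc
      exact absurd (Finset.mem_univ k) hc
  have e2 : ∑ i, ∑ j, (if k = j ∧ l = i then v i j else 0) = v k l := by
    rw [Finset.sum_eq_single l, Finset.sum_eq_single k]
    · simp [hv.1 l k]
    · intro b _ hb
      rw [if_neg (fun c => hb c.1.symm)]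
    · intro hc
      exact absurd (Finset.mem_univ k) hc
    · intro b _ hb
      apply Finset.sum_eq_zero
      intro c _
      rw [if_neg (fun c => hb c.2.symm)]
    · intro hc
      exact absurd (Finset.mem_univ l) hc
  have e3 : ∀ m : Fin n, ∑ i, ∑ j, (if m = i then v i j else 0) = ∑ j, v m j := by
    intro m
    rw [Finset.sum_eq_single m]
    · simp
    · intro b _ hb
      apply Finset.sum_eq_zero
      intro c _
      rw [if_neg (fun c => hb c.symm)]
    · intro hc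
      exact absurd (Finset.mem_univ m) hc
  have e4 : ∀ m : Fin n, ∑ i, ∑ j, (if m = j then v i j else 0) = ∑ j, v m j := by
    intro m
    rw [Finset.sum_comm]
    rw [← e3 m]
    apply Finset.sum_congr rfl
    intro i _
    apply Finset.sum_congr rfl
    intro j _
    rw [hv.1 i j]
  rw [e1, e2, e3, e3, e4, e4]
  ring

/-- the arrays with `⟨u_{kl}, A v⟩ = g v_{kl}` and mean `0` -/
structure TT (S : Sys n E) (f₀ : E) (g : ℝ) (v : Fin n → Fin n → ℂ) : Prop where
  sz : SZ v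
  eig : ∀ k l, (inner ℂ (S.u f₀ k l) (Av S f₀ v) : ℂ) = g * v k l
  mean : ∑ i, ∑ j, v i j = 0

/-- the array of type 1 -/
def a1 (y : Fin n → ℂ) (i j : Fin n) : ℂ := if i = j then 0 else y i + y j

theorem a1_sz (y : Fin n → ℂ) : SZ (a1 y) := by
  constructor
  · intro i j
    unfold a1
    by_cases h : i = j
    · rw [if_pos h, if_pos h.symm]
    · rw [if_neg h, if_neg (Ne.symm h), add_comm]
  · intro i
    simp [a1]

theorem a1_row (y : Fin n → ℂ) (hy : ∑ i, y i = 0) (i : Fin n) :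
    ∑ j, a1 y i j = ((n : ℂ) - 2) * y i := by
  have h1 : ∀ j, a1 y i j = (y i + y j) - (if i = j then 2 * y j else 0) := by
    intro j
    unfold a1
    split_ifs with h
    · subst h
      ring
    · ring
  simp only [h1]
  rw [Finset.sum_sub_distrib, Finset.sum_ite_eq, if_pos (Finset.mem_univ i),
    Finset.sum_add_distrib, hy, Finset.sum_const, Finset.card_univ, Fintype.card_fin,
    nsmul_eq_mul]
  ring

theorem a1_mean (y : Fin n → ℂ) (hy : ∑ i, y i = 0) : ∑ i, ∑ j, a1 y i j = 0 := by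
  simp only [a1_row y hy]
  rw [← Finset.mul_sum, hy, mul_zero]

theorem tt1 (S : Sys n E) {f₀ : E} {Q g1 g2 δ β : ℝ} (hG : S.IsGram f₀ Q g1 g2 δ β)
    (y : Fin n → ℂ) (hy : ∑ i, y i = 0) : TT S f₀ g1 (a1 y) := by
  refine ⟨a1_sz y, ?_, a1_mean y hy⟩
  intro k l
  by_cases hkl : k = l
  · subst hkl
    rw [u_diag, inner_zero_left, (a1_sz y).2 k, mul_zero]
  · rw [gram_formula S hG _ (a1_sz y) hkl, a1_mean y hy, a1_row y hy, a1_row y hy, hG.hg1]
    unfold a1
    rw [if_neg hkl]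
    push_cast
    ring

theorem tt2 (S : Sys n E) {f₀ : E} {Q g1 g2 δ β : ℝ} (hG : S.IsGram f₀ Q g1 g2 δ β)
    (z : Fin n → Fin n → ℂ) (hz : SZ z) (hr : ∀ i, ∑ j, z i j = 0) : TT S f₀ g2 z := by
  refine ⟨hz, ?_, ?_⟩
  · intro k l
    by_cases hkl : k = l
    · subst hkl
      rw [u_diag, inner_zero_left, hz.2 k, mul_zero]
    · rw [gram_formula S hG _ hz hkl]
      simp only [hr]
      simp
  · simp only [hr]
    simp

/-- orthogonality of the types -/
theorem orth12 (y : Fin n → ℂ) (z : Fin n → Fin n → ℂ) (hz : SZ z) (hr : ∀ i, ∑ j, z i j = 0) :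
    ∑ i, ∑ j, conj (a1 y i j) * z i j = 0 := by
  have h1 : ∀ i j, conj (a1 y i j) * z i j = conj (y i) * z i j + conj (y j) * z i j := by
    intro i j
    unfold a1
    by_cases h : i = j
    · subst h
      rw [hz.2 i]
      ring
    · rw [if_neg h, map_add]
      ring
  simp only [h1]
  simp only [Finset.sum_add_distrib]
  have e1 : ∑ i, ∑ j, conj (y i) * z i j = 0 := by
    apply Finset.sum_eq_zero
    intro i _
    rw [← Finset.mul_sum, hr, mul_zero]
  have e2 : ∑ i, ∑ j, conj (y j) * z i j = 0 := by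
    rw [Finset.sum_comm]
    apply Finset.sum_eq_zero
    intro j _
    rw [← Finset.mul_sum]
    have : ∑ i, z i j = 0 := by
      rw [← hr j]
      exact Finset.sum_congr rfl fun i _ => hz.1 i j
    rw [this, mul_zero]
  rw [e1, e2, add_zero]

theorem orth21 (y : Fin n → ℂ) (z : Fin n → Fin n → ℂ) (hz : SZ z) (hr : ∀ i, ∑ j, z i j = 0) :
    ∑ i, ∑ j, conj (z i j) * a1 y i j = 0 := by
  have h := congrArg conj (orth12 y z hz hr)
  rw [map_zero, map_sum] at h
  rw [← h]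
  apply Finset.sum_congr rfl
  intro i _
  rw [map_sum]
  apply Finset.sum_congr rfl
  intro j _
  rw [map_mul, Complex.conj_conj, mul_comm]

/-- norms -/
theorem norm_of (S : Sys n E) (f₀ : E) (c : ℝ) (w : Fin n → Fin n → ℂ)
    (h : ∀ k l, (inner ℂ (S.u f₀ k l) ((c : ℂ) • Av S f₀ w) : ℂ) = w k l) :
    ‖(c : ℂ) • Av S f₀ w‖ ^ 2 = c * ((1 / 2) * ∑ k, ∑ l, ‖w k l‖ ^ 2) := by
  have h1 : (inner ℂ ((c : ℂ) • Av S f₀ w) ((c : ℂ) • Av S f₀ w) : ℂ) =
      c * ((1 / 2) * ∑ k, ∑ l, (‖w k l‖ : ℂ) ^ 2) := by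
    rw [inner_smul_left (Av S f₀ w) ((c : ℂ) • Av S f₀ w), inner_Av, Complex.conj_ofReal]
    congr 2
    apply Finset.sum_congr rfl
    intro k _
    apply Finset.sum_congr rfl
    intro l _
    rw [h k l, Complex.conj_mul']
  have h2 : ((‖(c : ℂ) • Av S f₀ w‖ ^ 2 : ℝ) : ℂ) =
      ((c * ((1 / 2) * ∑ k, ∑ l, ‖w k l‖ ^ 2) : ℝ) : ℂ) := by
    have h3 := inner_self_eq_norm_sq_to_K (𝕜 := ℂ) ((c : ℂ) • Av S f₀ w)
    rw [h1] at h3
    push_cast
    rw [h3]
    rfl
  exact_mod_cast h2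

/-- the component of a type -/
theorem comp (S : Sys n E) {f₀ : E} {g : ℝ} {v : Fin n → Fin n → ℂ} (hT : TT S f₀ g v)
    (f : E) (hf : ∑ k, ∑ l, conj (v k l) * (inner ℂ (S.u f₀ k l) f : ℂ) =
      ∑ k, ∑ l, ((‖v k l‖ ^ 2 : ℝ) : ℂ)) :
    ∃ c : ℝ, (∀ k l, (inner ℂ (S.u f₀ k l) ((c : ℂ) • Av S f₀ v) : ℂ) = v k l) ∧
      (g * c = 1 ∨ ∀ k l, v k l = 0) ∧ (g = 0 → (c : ℂ) • Av S f₀ v = 0) := by
  by_cases hg : g = 0
  · have hA : Av S f₀ v = 0 := by
      have h1 : (inner ℂ (Av S f₀ v) (Av S f₀ v) : ℂ) = 0 := by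
        rw [inner_Av]
        simp only [hT.eig, hg]
        simp
      exact inner_self_eq_zero.1 h1
    have h2 : ∑ k, ∑ l, ‖v k l‖ ^ 2 = 0 := by
      have h3 := inner_Av S f₀ v f
      rw [hA, inner_zero_left, hf] at h3
      have h4 : ((∑ k, ∑ l, ‖v k l‖ ^ 2 : ℝ) : ℂ) = 0 := by
        push_cast
        push_cast at h3
        linear_combination (-2) * h3
      exact_mod_cast h4
    have h5 : ∀ k l, v k l = 0 := by
      intro k l
      have h6 := (Finset.sum_eq_zero_iff_of_nonneg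
        (fun k _ => Finset.sum_nonneg fun l _ => sq_nonneg _)).1 h2 k (Finset.mem_univ k)
      have h7 := (Finset.sum_eq_zero_iff_of_nonneg (fun l _ => sq_nonneg _)).1 h6 l
        (Finset.mem_univ l)
      exact norm_eq_zero.1 (pow_eq_zero_iff two_ne_zero |>.1 h7)
    refine ⟨0, ?_, Or.inr h5, ?_⟩
    · intro k l
      rw [h5 k l]
      simp
    · intro _
      simp
  · refine ⟨1 / g, ?_, Or.inl ?_, fun h => absurd h hg⟩
    · intro k l
      rw [inner_smul_right, hT.eig k l]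
      have : (g : ℂ) ≠ 0 := by exact_mod_cast hg
      push_cast
      field_simp
    · field_simp

/-- Pythagoras -/
theorem pyth3 (a b c : E) (r t : ℝ) (h1 : (inner ℂ a b : ℂ) = 0) (h2 : (inner ℂ a c : ℂ) = 0)
    (h3 : (inner ℂ b c : ℂ) = 0) :
    ‖a + (r : ℂ) • b + (t : ℂ) • c‖ ^ 2 = ‖a‖ ^ 2 + r ^ 2 * ‖b‖ ^ 2 + t ^ 2 * ‖c‖ ^ 2 := by
  have e1 : (inner ℂ (a + (r : ℂ) • b) ((t : ℂ) • c) : ℂ) = 0 := by
    rw [inner_smul_right, inner_add_left, inner_smul_left, h2, h3]
    simp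
  have e2 : (inner ℂ a ((r : ℂ) • b) : ℂ) = 0 := by
    rw [inner_smul_right, h1, mul_zero]
  have p1 := norm_add_sq_eq_norm_sq_add_norm_sq_of_inner_eq_zero (a + (r : ℂ) • b)
    ((t : ℂ) • c) e1
  have p2 := norm_add_sq_eq_norm_sq_add_norm_sq_of_inner_eq_zero a ((r : ℂ) • b) e2
  rw [norm_smul] at p1 p2
  simp only [Complex.norm_real, Real.norm_eq_abs] at p1 p2
  have q1 : |r| * |r| = r ^ 2 := by rw [← sq, sq_abs]
  have q2 : |t| * |t| = t ^ 2 := by rw [← sq, sq_abs]
  rw [sq, p1, p2]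
  linear_combination (‖b‖ * ‖b‖) * q1 + (‖c‖ * ‖c‖) * q2

/-- sums for the swap -/
theorem swap_sum (v : Fin n → Fin n → ℂ) (hv : SZ v) {i j : Fin n} (hij : i ≠ j) :
    ∑ k, ∑ l, ‖v k l - v (Equiv.swap i j k) (Equiv.swap i j l)‖ ^ 2 =
      4 * ∑ k ∈ oth i j, ‖v i k - v j k‖ ^ 2 := by
  have hs : ∀ k ∈ oth i j, Equiv.swap i j k = k := by
    intro k hk
    rw [mem_oth] at hk
    exact Equiv.swap_apply_of_ne_of_ne hk.2 hk.1
  rw [sum_split hij]
  have e1 : ∑ l, ‖v i l - v (Equiv.swap i j i) (Equiv.swap i j l)‖ ^ 2 =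
      ∑ k ∈ oth i j, ‖v i k - v j k‖ ^ 2 := by
    rw [sum_split hij, Equiv.swap_apply_left, Equiv.swap_apply_right, hv.2 i, hv.2 j,
      hv.1 j i]
    simp only [sub_self, norm_zero]
    rw [show ((0 : ℝ) ^ 2) = 0 by norm_num, zero_add, zero_add]
    apply Finset.sum_congr rfl
    intro k hk
    rw [hs k hk]
  have e2 : ∑ l, ‖v j l - v (Equiv.swap i j j) (Equiv.swap i j l)‖ ^ 2 =
      ∑ k ∈ oth i j, ‖v i k - v j k‖ ^ 2 := by
    rw [sum_split hij, Equiv.swap_apply_left, Equiv.swap_apply_right, hv.2 i, hv.2 j,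
      hv.1 j i]
    simp only [sub_self, norm_zero]
    rw [show ((0 : ℝ) ^ 2) = 0 by norm_num, zero_add, zero_add]
    apply Finset.sum_congr rfl
    intro k hk
    rw [hs k hk, norm_sub_rev]
  have e3 : ∀ k ∈ oth i j, ∑ l, ‖v k l - v (Equiv.swap i j k) (Equiv.swap i j l)‖ ^ 2 =
      2 * ‖v i k - v j k‖ ^ 2 := by
    intro k hk
    rw [sum_split hij, hs k hk, Equiv.swap_apply_left, Equiv.swap_apply_right]
    have : ∑ l ∈ oth i j, ‖v k l - v k (Equiv.swap i j l)‖ ^ 2 = 0 := by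
      apply Finset.sum_eq_zero
      intro l hl
      rw [hs l hl, sub_self, norm_zero]
      norm_num
    rw [this, hv.1 k i, hv.1 k j, norm_sub_rev (v j k) (v i k)]
    ring
  rw [e1, e2, Finset.sum_congr rfl e3, ← Finset.mul_sum]
  ring

theorem a1_normsum (y : Fin n → ℂ) (hy : ∑ i, y i = 0) :
    ∑ k, ∑ l, ‖a1 y k l‖ ^ 2 = 2 * ((n : ℝ) - 2) * ∑ i, ‖y i‖ ^ 2 := by
  have h1 : ∀ k l, ((‖a1 y k l‖ ^ 2 : ℝ) : ℂ) = conj (y k) * a1 y k l + conj (y l) * a1 y k l := by
    intro k l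
    push_cast
    rw [← Complex.conj_mul']
    by_cases h : k = l
    · simp [a1, h]
    · simp only [a1, if_neg h, map_add]
      ring
  have h2 : ((∑ k, ∑ l, ‖a1 y k l‖ ^ 2 : ℝ) : ℂ) =
      ((2 * ((n : ℝ) - 2) * ∑ i, ‖y i‖ ^ 2 : ℝ) : ℂ) := by
    rw [Complex.ofReal_sum]
    simp only [Complex.ofReal_sum, h1, Finset.sum_add_distrib]
    have e1 : ∑ k, ∑ l, conj (y k) * a1 y k l = ∑ k, ((n : ℂ) - 2) * (‖y k‖ ^ 2 : ℂ) := by
      apply Finset.sum_congr rfl
      intro k _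
      rw [← Finset.mul_sum, a1_row y hy, ← Complex.conj_mul']
      ring
    have e2 : ∑ k, ∑ l, conj (y l) * a1 y k l = ∑ k, ((n : ℂ) - 2) * (‖y k‖ ^ 2 : ℂ) := by
      rw [Finset.sum_comm, ← e1]
      apply Finset.sum_congr rfl
      intro k _
      apply Finset.sum_congr rfl
      intro l _
      rw [(a1_sz y).1 l k]
    rw [e1, e2, ← Finset.mul_sum]
    push_cast
    ring
  exact_mod_cast h2

/-- the main statement -/
theorem cde : CDEStmt := by
  intro n hn E _ _ S f₀ h0 Q g1 g2 δ β hG f hf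
  have hn' : (4 : ℝ) ≤ n := by exact_mod_cast hn
  set x : Fin n → Fin n → ℂ := fun i j => inner ℂ (S.u f₀ i j) f with hxdef
  -- the array
  have hx : IsArr x Q := by
    refine ⟨?_, ?_, ?_⟩
    · intro i j
      simp only [hxdef]
      rw [u_symm]
    · intro i
      simp only [hxdef]
      rw [u_diag, inner_zero_left]
    · have hinv : S.Inv (∑ i, ∑ j, S.u f₀ i j) := by
        intro σ
        rw [map_sum, ← Equiv.sum_comp σ (fun i => ∑ j, S.u f₀ i j)]
        apply Finset.sum_congr rfl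
        intro i _
        rw [map_sum, ← Equiv.sum_comp σ (fun j => S.u f₀ (σ i) j)]
        apply Finset.sum_congr rfl
        intro j _
        exact s_u S h0 σ i j
      have h1 := hf _ hinv
      rw [inner_sub_right, sub_eq_zero, sum_inner, sum_inner] at h1
      have h2 : ∀ y : E, ∑ i, (inner ℂ (∑ j, S.u f₀ i j) y : ℂ) =
          ∑ i, ∑ j, (inner ℂ (S.u f₀ i j) y : ℂ) := by
        intro y
        exact Finset.sum_congr rfl fun i _ => sum_inner _ _ _
      rw [h2, h2] at h1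
      simp only [hxdef]
      rw [h1]
      have h3 : ∀ i j, (inner ℂ (S.u f₀ i j) f₀ : ℂ) = (Q : ℂ) - (if i = j then (Q : ℂ) else 0) := by
        intro i j
        by_cases h : i = j
        · subst h
          rw [u_diag, inner_zero_left, if_pos rfl, sub_self]
        · rw [hG.self i j h, if_neg h, sub_zero]
      simp only [h3]
      simp only [Finset.sum_sub_distrib, Finset.sum_ite_eq, Finset.mem_univ, if_true,
        Finset.sum_const, Finset.card_univ, Fintype.card_fin, nsmul_eq_mul]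
      ring
  refine ⟨hx, ?_⟩
  set y := yv x Q with hydef
  set z := zv x Q with hzdef
  have hy : ∑ i, y i = 0 := sum_yv hn x Q hx
  have hz : SZ z := ⟨zv_symm x Q hx, fun i => by simp [hzdef, zv]⟩
  have hr : ∀ i, ∑ j, z i j = 0 := sum_zv hn x Q hx
  have T1 := tt1 S hG y hy
  have T2 := tt2 S hG z hz hr
  have hxd : ∀ k l, k ≠ l → x k l = Q + a1 y k l + z k l := by
    intro k l h
    simp only [hzdef, zv, a1, if_neg h]
    ring
  -- the sums
  have hconj : ∀ v : Fin n → Fin n → ℂ, (∑ i, ∑ j, v i j = 0) →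
      ∑ i, ∑ j, conj (v i j) = 0 := by
    intro v hv
    have h := congrArg conj hv
    rw [map_zero, map_sum] at h
    rw [← h]
    exact Finset.sum_congr rfl fun i _ => (map_sum _ _ _).symm
  have hsplit : ∀ v : Fin n → Fin n → ℂ, SZ v → (∑ i, ∑ j, v i j = 0) →
      ∑ k, ∑ l, conj (v k l) * (inner ℂ (S.u f₀ k l) f : ℂ) =
        ∑ k, ∑ l, conj (v k l) * a1 y k l + ∑ k, ∑ l, conj (v k l) * z k l := by
    intro v hv hm
    have h1 : ∀ k l, conj (v k l) * (inner ℂ (S.u f₀ k l) f : ℂ) =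
        Q * conj (v k l) + conj (v k l) * a1 y k l + conj (v k l) * z k l := by
      intro k l
      by_cases h : k = l
      · subst h
        rw [hv.2 k]
        simp
      · have h2 := hxd k l h
        simp only [hxdef] at h2
        rw [h2]
        ring
    simp only [h1, Finset.sum_add_distrib, ← Finset.mul_sum]
    rw [hconj v hm]
    ring
  have hnsq : ∀ v : Fin n → Fin n → ℂ, ∑ k, ∑ l, conj (v k l) * v k l =
      ∑ k, ∑ l, ((‖v k l‖ ^ 2 : ℝ) : ℂ) := by
    intro v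
    apply Finset.sum_congr rfl
    intro k _
    apply Finset.sum_congr rfl
    intro l _
    rw [Complex.conj_mul']
    push_cast
    rfl
  obtain ⟨c1, hc1, hc1', hc1''⟩ := comp S T1 f (by
    rw [hsplit _ T1.sz T1.mean, orth12 y z hz hr, add_zero, hnsq])
  obtain ⟨c2, hc2, hc2', hc2''⟩ := comp S T2 f (by
    rw [hsplit _ T2.sz T2.mean, orth21 y z hz hr, zero_add, hnsq])
  set f1 := (c1 : ℂ) • Av S f₀ (a1 y) with hf1
  set f2 := (c2 : ℂ) • Av S f₀ z with hf2
  set fN := f - f₀ - f1 - f2 with hfN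
  -- `fN` is orthogonal to the `u`
  have hNu : ∀ k l, (inner ℂ (S.u f₀ k l) fN : ℂ) = 0 := by
    intro k l
    by_cases h : k = l
    · subst h
      rw [u_diag, inner_zero_left]
    · rw [hfN, inner_sub_right, inner_sub_right, inner_sub_right, hc1, hc2, hG.self k l h]
      have h2 := hxd k l h
      simp only [hxdef] at h2
      rw [h2]
      ring
  have hNA : ∀ v, (inner ℂ (Av S f₀ v) fN : ℂ) = 0 := by
    intro v
    rw [inner_Av]
    simp only [hNu]
    simp
  have hsu : ∀ (i j k l : Fin n) (w : E), (inner ℂ (S.u f₀ k l) (S.s (Equiv.swap i j) w) : ℂ) =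
      inner ℂ (S.u f₀ (Equiv.swap i j k) (Equiv.swap i j l)) w := by
    intro i j k l w
    have h1 := inner_s S (Equiv.swap i j) (S.u f₀ (Equiv.swap i j k) (Equiv.swap i j l)) w
    rw [s_u S h0, Equiv.swap_apply_self, Equiv.swap_apply_self] at h1
    exact h1
  have hNsA : ∀ i j v, (inner ℂ (Av S f₀ v) (S.s (Equiv.swap i j) fN) : ℂ) = 0 := by
    intro i j v
    rw [inner_Av]
    simp only [hsu, hNu]
    simp
  -- invariants
  have hinvA : ∀ v : Fin n → Fin n → ℂ, SZ v → (∑ i, ∑ j, v i j = 0) → ∀ h : E, S.Inv h →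
      (inner ℂ h (Av S f₀ v) : ℂ) = 0 := by
    intro v hv hm h hh
    have h1 : (inner ℂ (Av S f₀ v) h : ℂ) = 0 := by
      rw [inner_Av]
      have hi0 : (0 : ℕ) < n := by omega
      have hi1 : (1 : ℕ) < n := by omega
      have hne : (⟨0, hi0⟩ : Fin n) ≠ ⟨1, hi1⟩ := by
        intro h
        simp at h
      have h2 : ∀ k l, conj (v k l) * (inner ℂ (S.u f₀ k l) h : ℂ) =
          (inner ℂ (S.u f₀ ⟨0, hi0⟩ ⟨1, hi1⟩) h : ℂ) * conj (v k l) := by
        intro k l
        by_cases hkl : k = l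
        · subst hkl
          rw [hv.2 k]
          simp
        · rw [inner_u_inv S h0 hh hkl hne]
          ring
      simp only [h2, ← Finset.mul_sum]
      rw [hconj v hm]
      simp
    rw [← inner_conj_symm, h1, map_zero]
  have hinv1 : ∀ h, S.Inv h → (inner ℂ h f1 : ℂ) = 0 := by
    intro h hh
    rw [hf1, inner_smul_right, hinvA _ T1.sz T1.mean h hh, mul_zero]
  have hinv2 : ∀ h, S.Inv h → (inner ℂ h f2 : ℂ) = 0 := by
    intro h hh
    rw [hf2, inner_smul_right, hinvA _ T2.sz T2.mean h hh, mul_zero]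
  -- orthogonality
  have hzs : ∀ i j : Fin n, SZ (fun k l => z (Equiv.swap i j k) (Equiv.swap i j l)) ∧
      ∀ k, ∑ l, z (Equiv.swap i j k) (Equiv.swap i j l) = 0 := by
    intro i j
    refine ⟨⟨fun k l => hz.1 _ _, fun k => hz.2 _⟩, ?_⟩
    intro k
    rw [Equiv.sum_comp (Equiv.swap i j) (fun l => z (Equiv.swap i j k) l)]
    exact hr _
  have o12 : (inner ℂ f1 f2 : ℂ) = 0 := by
    rw [hf1, inner_smul_left, inner_Av]
    simp only [hc2]
    rw [orth12 y z hz hr]
    simp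
  have o12s : ∀ i j, (inner ℂ f1 (S.s (Equiv.swap i j) f2) : ℂ) = 0 := by
    intro i j
    rw [hf1, inner_smul_left, inner_Av]
    simp only [hsu, hc2]
    rw [orth12 y _ (hzs i j).1 (hzs i j).2]
    simp
  have oN1 : (inner ℂ fN f1 : ℂ) = 0 := by
    rw [← inner_conj_symm, hf1, inner_smul_left, hNA]
    simp
  have oN2 : (inner ℂ fN f2 : ℂ) = 0 := by
    rw [← inner_conj_symm, hf2, inner_smul_left, hNA]
    simp
  have osN1 : ∀ i j, (inner ℂ (S.s (Equiv.swap i j) fN) f1 : ℂ) = 0 := by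
    intro i j
    rw [← inner_conj_symm, hf1, inner_smul_left, hNsA]
    simp
  have osN2 : ∀ i j, (inner ℂ (S.s (Equiv.swap i j) fN) f2 : ℂ) = 0 := by
    intro i j
    rw [← inner_conj_symm, hf2, inner_smul_left, hNsA]
    simp
  have hflip : ∀ (i j : Fin n) (a b : E), (inner ℂ a (S.s (Equiv.swap i j) b) : ℂ) =
      inner ℂ (S.s (Equiv.swap i j) a) b := by
    intro i j a b
    have h1 := inner_s S (Equiv.swap i j) a (S.s (Equiv.swap i j) b)
    have h2 : S.s (Equiv.swap i j) (S.s (Equiv.swap i j) b) = b := by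
      have h3 : S.s (Equiv.swap i j) * S.s (Equiv.swap i j) = 1 := by
        rw [← map_mul, Equiv.swap_mul_self, map_one]
      exact congrArg (fun T : E →ₗ[ℂ] E => T b) h3
    rw [h2] at h1
    exact h1.symm
  have hdiff : ∀ (i j : Fin n) (a b : E), (inner ℂ a b : ℂ) = 0 →
      (inner ℂ (S.s (Equiv.swap i j) a) b : ℂ) = 0 →
      (inner ℂ (a - S.s (Equiv.swap i j) a) (b - S.s (Equiv.swap i j) b) : ℂ) = 0 := by
    intro i j a b h1 h2
    rw [inner_sub_left, inner_sub_right, inner_sub_right, inner_s, hflip, h1, h2]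
    simp
  have os12 : ∀ i j, (inner ℂ (S.s (Equiv.swap i j) f1) f2 : ℂ) = 0 := by
    intro i j
    rw [← hflip]
    exact o12s i j
  -- norms
  have key : ∀ (g c : ℝ) (v : Fin n → Fin n → ℂ), (g * c = 1 ∨ ∀ k l, v k l = 0) →
      (∀ k l, (inner ℂ (S.u f₀ k l) ((c : ℂ) • Av S f₀ v) : ℂ) = v k l) →
      g * ‖(c : ℂ) • Av S f₀ v‖ ^ 2 = (1 / 2) * ∑ k, ∑ l, ‖v k l‖ ^ 2 := by
    intro g c v hgc hv
    rw [norm_of S f₀ c v hv]
    rcases hgc with h | h
    · rw [← mul_assoc, h, one_mul]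
    · simp only [h]
      simp
  have keys : ∀ (g c : ℝ) (v : Fin n → Fin n → ℂ) (i j : Fin n),
      (g * c = 1 ∨ ∀ k l, v k l = 0) →
      (∀ k l, (inner ℂ (S.u f₀ k l) ((c : ℂ) • Av S f₀ v) : ℂ) = v k l) →
      g * ‖(c : ℂ) • Av S f₀ v - S.s (Equiv.swap i j) ((c : ℂ) • Av S f₀ v)‖ ^ 2 =
        (1 / 2) * ∑ k, ∑ l, ‖v k l - v (Equiv.swap i j k) (Equiv.swap i j l)‖ ^ 2 := by
    intro g c v i j hgc hv
    have e : (c : ℂ) • Av S f₀ v - S.s (Equiv.swap i j) ((c : ℂ) • Av S f₀ v) =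
        (c : ℂ) • Av S f₀ (fun k l => v k l - v (Equiv.swap i j k) (Equiv.swap i j l)) := by
      rw [Av_sub, ← s_Av S h0, map_smul, smul_sub]
    have h2 := key g c (fun k l => v k l - v (Equiv.swap i j k) (Equiv.swap i j l)) (by
      rcases hgc with h | h
      · exact Or.inl h
      · right
        intro k l
        rw [h, h, sub_self]) (by
      intro k l
      rw [← e, inner_sub_right, hsu, hv, hv])
    rw [e]
    exact h2
  refine ⟨f1, f2, fN, ?_, ?_, ?_, ?_, ?_, ?_, ?_, hc1'', hc2''⟩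
  · rw [hfN]
    abel
  · intro h hh
    refine ⟨hinv1 h hh, hinv2 h hh, ?_⟩
    rw [hfN, inner_sub_right, inner_sub_right, hf h hh, hinv1 h hh, hinv2 h hh]
    simp
  · intro r t
    refine ⟨pyth3 fN f1 f2 r t oN1 oN2 o12, ?_⟩
    intro i j
    have e : (fN + (r : ℂ) • f1 + (t : ℂ) • f2) -
        S.s (Equiv.swap i j) (fN + (r : ℂ) • f1 + (t : ℂ) • f2) =
        (fN - S.s (Equiv.swap i j) fN) + (r : ℂ) • (f1 - S.s (Equiv.swap i j) f1) +
          (t : ℂ) • (f2 - S.s (Equiv.swap i j) f2) := by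
      rw [map_add, map_add, (S.s (Equiv.swap i j)).map_smul (r : ℂ) f1,
        (S.s (Equiv.swap i j)).map_smul (t : ℂ) f2, smul_sub, smul_sub]
      abel
    rw [e]
    exact pyth3 _ _ _ r t (hdiff i j _ _ oN1 (osN1 i j)) (hdiff i j _ _ oN2 (osN2 i j))
      (hdiff i j _ _ o12 (os12 i j))
  · rw [hf1, key g1 c1 _ hc1' hc1, a1_normsum y hy]
    unfold Yv
    ring
  · rw [hf2, key g2 c2 _ hc2' hc2]
    rfl
  · intro i j
    rw [hf1, keys g1 c1 _ i j hc1' hc1]
    by_cases hij : i = j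
    · subst hij
      simp
    · rw [swap_sum _ T1.sz hij]
      have h1 : ∀ k ∈ oth i j, ‖a1 y i k - a1 y j k‖ ^ 2 = ‖y i - y j‖ ^ 2 := by
        intro k hk
        rw [mem_oth] at hk
        unfold a1
        rw [if_neg (Ne.symm hk.2), if_neg (Ne.symm hk.1), add_sub_add_right_eq_sub]
      rw [Finset.sum_congr rfl h1, Finset.sum_const, nsmul_eq_mul, card_oth hij]
      ring
  · intro i j hij
    rw [hf2, keys g2 c2 _ i j hc2' hc2, swap_sum _ T2.sz hij, A2_eq x Q hij]
    ring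

end Pool.Agent.GRA.H56
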