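import Pool.Agent.GRA.StmtsM

set_option autoImplicit false

open MeasureTheory Matrix Finset
open scoped ComplexConjugate

namespace Pool.Agent.GRA.H56

open Pool.Agent.GRA Pool.Agent.BSE Pool.Agent.Helper64_FR

theorem pair_sum {n : ℕ} (F : Finset (Fin n) → ℝ) :
    ∑ i, ∑ j, (if i = j then 0 else F {i, j}) =
      2 * ∑ B ∈ (Finset.univ : Finset (Fin n)).powersetCard 2, F B := by
  have h1 : ∑ i : Fin n, ∑ j : Fin n, (if i = j then 0 else F {i, j}) =
      ∑ p ∈ (Finset.univ : Finset (Fin n)).offDiag, F {p.1, p.2} := by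
    rw [← Finset.sum_product']
    symm
    have hsub : (Finset.univ : Finset (Fin n)).offDiag ⊆
        (Finset.univ : Finset (Fin n)) ×ˢ (Finset.univ : Finset (Fin n)) := by
      intro p _
      simp
    rw [← Finset.sum_subset hsub]
    · apply Finset.sum_congr rfl
      intro p hp
      rw [Finset.mem_offDiag] at hp
      rw [if_neg hp.2.2]
    · intro p _ hp
      rw [Finset.mem_offDiag] at hp
      rw [if_pos]
      by_contra h
      exact hp ⟨Finset.mem_univ _, Finset.mem_univ _, h⟩
  rw [h1, ← Finset.sum_fiberwise_of_maps_to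
    (t := (Finset.univ : Finset (Fin n)).powersetCard 2) (g := fun p : Fin n × Fin n => {p.1, p.2})]
  · rw [Finset.mul_sum]
    apply Finset.sum_congr rfl
    intro B hB
    rw [Finset.mem_powersetCard] at hB
    have h2 : ∀ p ∈ (Finset.univ : Finset (Fin n)).offDiag.filter
        (fun p => ({p.1, p.2} : Finset (Fin n)) = B), F {p.1, p.2} = F B := by
      intro p hp
      rw [(Finset.mem_filter.1 hp).2]
    rw [Finset.sum_congr rfl h2, Finset.sum_const, nsmul_eq_mul]
    congr 1
    have h3 : (Finset.univ : Finset (Fin n)).offDiag.filter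
        (fun p => ({p.1, p.2} : Finset (Fin n)) = B) = B.offDiag := by
      ext p
      rw [Finset.mem_filter, Finset.mem_offDiag, Finset.mem_offDiag]
      constructor
      · rintro ⟨⟨_, _, h⟩, hb⟩
        rw [← hb]
        simp [h]
      · rintro ⟨ha, hb, h⟩
        refine ⟨⟨Finset.mem_univ _, Finset.mem_univ _, h⟩, ?_⟩
        apply Finset.eq_of_subset_of_card_le
        · intro q hq
          rw [Finset.mem_insert, Finset.mem_singleton] at hq
          rcases hq with rfl | rfl
          · exact ha
          · exact hb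
        · rw [hB.2, Finset.card_pair h]
    rw [h3, Finset.offDiag_card, hB.2]
    norm_num
  · intro p hp
    rw [Finset.mem_offDiag] at hp
    rw [Finset.mem_powersetCard]
    exact ⟨Finset.subset_univ _, Finset.card_pair hp.2.2⟩

/-- the variance of a block -/
noncomputable def vb {n : ℕ} (B : Finset (Fin n)) (y : Fin n → ℝ) : ℝ :=
  ∑ i, H47.dv B y i ^ 2

theorem vb_eq {n : ℕ} (B : Finset (Fin n)) (y : Fin n → ℝ) :
    vb B y = ∑ i ∈ B, (y i - (∑ j ∈ B, y j) / B.card) ^ 2 := by
  unfold vb
  rw [← Finset.sum_subset (Finset.subset_univ B)]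
  · apply Finset.sum_congr rfl
    intro i hi
    rw [H47.dv_of_mem hi]
  · intro i _ hi
    rw [H47.dv_of_notMem hi]
    norm_num

theorem vb_pair {n : ℕ} {a b : Fin n} (h : a ≠ b) (y : Fin n → ℝ) :
    vb {a, b} y = 1 / 2 * (y a - y b) ^ 2 := by
  rw [vb_eq, Finset.sum_pair h, Finset.sum_pair h, Finset.card_pair h]
  push_cast
  ring

theorem vb_small {n : ℕ} {B : Finset (Fin n)} (h : B.card ≤ 1) (y : Fin n → ℝ) :
    vb B y = 0 := by
  rw [vb_eq]
  apply Finset.sum_eq_zero
  intro i hi
  have h1 : B = {i} := by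
    apply Finset.eq_singleton_iff_unique_mem.2
    refine ⟨hi, fun j hj => ?_⟩
    exact Finset.card_le_one.1 h j hj i hi
  rw [h1]
  simp

theorem vb_univ {n : ℕ} (hn : 0 < n) (y : Fin n → ℝ) :
    vb Finset.univ y = ∑ i, y i ^ 2 - (∑ i, y i) ^ 2 / (Finset.univ : Finset (Fin n)).card := by
  have hn' : (n : ℝ) ≠ 0 := by
    have : (0 : ℝ) < n := by exact_mod_cast hn
    exact this.ne'
  rw [vb_eq, Finset.card_univ, Fintype.card_fin]
  have h1 : ∀ i, (y i - (∑ j, y j) / (n : ℝ)) ^ 2 =
      y i ^ 2 - 2 * ((∑ j, y j) / n) * y i + ((∑ j, y j) / n) ^ 2 := by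
    intro i
    ring
  simp only [h1]
  rw [Finset.sum_add_distrib, Finset.sum_sub_distrib, ← Finset.mul_sum, Finset.sum_const,
    Finset.card_univ, Fintype.card_fin, nsmul_eq_mul]
  field_simp
  ring

theorem fon : FONStmt := by
  intro n hn w hw μ hO y
  have h1 := hO y
  change μ * vb Finset.univ y ≤ ∑ B : Finset (Fin n), w B * vb B y at h1
  rw [← vb_univ (by omega) y]
  have h2 : ∑ B : Finset (Fin n), w B * vb B y = w Finset.univ * vb Finset.univ y +
      ∑ B ∈ (Finset.univ : Finset (Fin n)).powersetCard 2, w B * vb B y := by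
    rw [← Finset.add_sum_erase _ _ (Finset.mem_univ (Finset.univ : Finset (Fin n)))]
    congr 1
    symm
    apply Finset.sum_subset
    · intro B hB
      rw [Finset.mem_powersetCard] at hB
      rw [Finset.mem_erase]
      refine ⟨?_, Finset.mem_univ _⟩
      intro h
      rw [h, Finset.card_univ, Fintype.card_fin] at hB
      omega
    · intro B hB hB2
      rw [Finset.mem_erase] at hB
      by_cases hwB : w B = 0
      · rw [hwB, zero_mul]
      · rcases hw B hwB with h | h
        · have h3 : B.card ≠ 2 := by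
            intro h3
            exact hB2 (Finset.mem_powersetCard.2 ⟨Finset.subset_univ _, h3⟩)
          rw [vb_small (by omega), mul_zero]
        · exact absurd h hB.1
  have h3 := pair_sum (fun B => w B * vb B y)
  have h4 : ∑ i : Fin n, ∑ j : Fin n, (if i = j then 0 else w {i, j} * vb {i, j} y) =
      1 / 2 * ∑ i, ∑ j, Wp w i j * (y i - y j) ^ 2 := by
    rw [Finset.mul_sum]
    apply Finset.sum_congr rfl
    intro i _
    rw [Finset.mul_sum]
    apply Finset.sum_congr rfl
    intro j _
    unfold Wp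
    by_cases h : i = j
    · rw [if_pos h, if_pos h]
      ring
    · rw [if_neg h, if_neg h, vb_pair h]
      ring
  rw [h4] at h3
  rw [h2] at h1
  linarith

end Pool.Agent.GRA.H56
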